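import Pool.Agent.Lib_helper52.EPS.Defs
import Pool.Agent.Lib_helper23.EPS.F3
import Pool.Agent.Lib_helper13.EPS.F4

set_option autoImplicit false

namespace Pool.Agent.EPS

open MeasureTheory Set Filter Topology

variable {d : ℕ}

/-- submodularity of the entropy of sums (Madiman), with finiteness -/
theorem submod (α β γ : Measure (EuclideanSpace ℝ (Fin d))) [IsProbabilityMeasure α]
    [IsProbabilityMeasure β] [IsProbabilityMeasure γ] (hγ : FinE γ) (h1 : FinE (α.conv γ))
    (h2 : FinE (β.conv γ)) : FinE (α.conv (β.conv γ)) ∧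
      ent (α.conv (β.conv γ)) + ent γ ≤ ent (α.conv γ) + ent (β.conv γ) := by
  have hm : MI α (β.conv γ) ≤ MI α γ := MI_mono α β γ
  obtain ⟨e1, l1⟩ := MI_val α γ hγ h1
  have hfin : MI α (β.conv γ) ≠ ⊤ :=
    ne_top_of_le_ne_top (by rw [e1]; exact ENNReal.ofReal_ne_top) hm
  have hF := MI_fin α (β.conv γ) h2 hfin
  obtain ⟨e2, l2⟩ := MI_val α (β.conv γ) h2 hF
  rw [e1, e2] at hm
  have := (ENNReal.ofReal_le_ofReal_iff (by linarith)).1 hm
  exact ⟨hF, by linarith⟩

end Pool.Agent.EPS
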