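import Pool.Agent.Lib_helper52.EPS.Defs
import Pool.Agent.Lib_helper52.EPS.P.F5

set_option autoImplicit false

namespace Pool.Agent.EPS

open MeasureTheory Set Filter Topology

variable {d : ℕ}

theorem cp_prob (ζ : Measure (EuclideanSpace ℝ (Fin d))) [IsProbabilityMeasure ζ] (k : ℕ) :
    IsProbabilityMeasure (cp ζ k) := by
  induction k with
  | zero => unfold cp; infer_instance
  | succ k ih => unfold cp; infer_instance

/-- the chain for `k` copies -/
theorem chain_copies (α ζ : Measure (EuclideanSpace ℝ (Fin d))) [IsProbabilityMeasure α]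
    [IsProbabilityMeasure ζ] (hα : FinE α) (h1 : FinE (α.conv ζ)) (k : ℕ) :
    FinE (α.conv (cp ζ k)) ∧
      ent (α.conv (cp ζ k)) ≤ ent α + k * (ent (α.conv ζ) - ent α) := by
  induction k with
  | zero =>
    have e : α.conv (cp ζ 0) = α := by
      unfold cp
      exact Measure.conv_dirac_zero α
    rw [e]
    exact ⟨hα, by simp⟩
  | succ k ih =>
    obtain ⟨ih1, ih2⟩ := ih
    haveI := cp_prob ζ k
    have e : α.conv (cp ζ (k + 1)) = (cp ζ k).conv (ζ.conv α) := by
      show α.conv ((cp ζ k).conv ζ) = _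
      rw [Measure.conv_comm α, Measure.conv_assoc]
    have c1 : (cp ζ k).conv α = α.conv (cp ζ k) := Measure.conv_comm _ _
    have c2 : ζ.conv α = α.conv ζ := Measure.conv_comm _ _
    have h := submod (cp ζ k) ζ α hα (by rw [c1]; exact ih1) (by rw [c2]; exact h1)
    rw [e]
    refine ⟨h.1, ?_⟩
    have h2 := h.2
    rw [c1] at h2
    rw [c2] at h2 ⊢
    push_cast
    linarith

end Pool.Agent.EPS
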