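import Pool.Agent.Lib_helper52.EPS.Defs
import Pool.Agent.Lib_helper89.EPS.A0
import Pool.Agent.Lib_helper33.EPS.A2
import Pool.Agent.Lib_helper33.EPS.A3
import Pool.Agent.Lib_helper2.EPS.A5
import Pool.Agent.Lib_helper73.EPS.A6
import Pool.Agent.Lib_helper44.EPS.A7
import Pool.Agent.Lib_helper8.EPS.A8
import Pool.Agent.Lib_helper58.EPS.A9
import Pool.Agent.Lib_helper73.EPS.C0

set_option autoImplicit false

namespace Pool.Agent.EPS

open MeasureTheory Set Filter Topology

theorem aa_log_ga (z : ℝ) : Real.log (ga z) = -(Real.pi * z ^ 2) := by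
  unfold ga
  rw [Real.log_exp]

theorem aa_int_log_ga : Integrable (fun z => Real.log (ga z) * ga z) := by
  have h := ga_int1.const_mul Real.pi
  refine Integrable.mono' h ?_ (ae_of_all _ fun z => ?_)
  · have : Continuous (fun z => Real.log (ga z) * ga z) := by
      simp only [aa_log_ga]
      exact (by fun_prop : Continuous fun z : ℝ => -(Real.pi * z ^ 2)).mul ga_cont
    exact this.aestronglyMeasurable
  · rw [aa_log_ga, norm_mul, norm_neg, Real.norm_of_nonneg (by positivity),
      Real.norm_of_nonneg (ga_pos z).le]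
    have := (ga_pos z).le
    have hp := Real.pi_pos
    nlinarith [mul_nonneg hp.le this]

/-- entropy of `f` through the transport map -/
theorem aa_ent {a b m M : ℝ} {f T : ℝ → ℝ} (h : Nice a b m M f) (hT : Tr a b f T) :
    ∫ z, Real.log (ga z / f (T z)) * ga z =
      (∫ z, Real.log (ga z) * ga z) + ∫ x, Real.negMulLog (f x) := by
  obtain ⟨h1, h2⟩ := tr_integral h hT (fun y => Real.log (f y))
  have hi : Integrable (fun y => Real.log (f y) * f y) := by
    have := (bdc_ent (nice_bdc h)).neg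
    refine this.congr (ae_of_all _ fun y => ?_)
    simp only [Real.negMulLog, Pi.neg_apply]
    ring
  have hi2 := h1.1 hi
  have e1 : ∀ z, Real.log (ga z / f (T z)) * ga z =
      Real.log (ga z) * ga z - Real.log (f (T z)) * ga z := by
    intro z
    have hpos : 0 < f (T z) := lt_of_lt_of_le h.m0 (h.lo _ (Ioo_subset_Icc_self (hT.mem z)))
    rw [Real.log_div (ga_pos z).ne' hpos.ne']
    ring
  simp_rw [e1]
  rw [integral_sub aa_int_log_ga hi2, ← h2, sub_eq_add_neg, ← integral_neg]
  refine congrArg (fun t : ℝ => _ + t) ?_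
  refine integral_congr_ae (ae_of_all _ fun y => ?_)
  simp only [Real.negMulLog]
  ring

/-- the entropy power inequality for nice densities on the line -/
theorem nice_epi {a b m M a' b' m' M' : ℝ} {f g : ℝ → ℝ} (hf : Nice a b m M f)
    (hg : Nice a' b' m' M' g) (l : ℝ) (h0 : 0 < l) (h1 : l < 1) :
    l * (∫ x, Real.negMulLog (f x)) + (1 - l) * (∫ x, Real.negMulLog (g x))
      + 1 / 2 * Real.binEntropy l ≤ ∫ t, Real.negMulLog (cv f g t) := by
  obtain ⟨T, hT⟩ := exists_Tr hf
  obtain ⟨U, hU⟩ := exists_Tr hg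
  set c := Real.sqrt l with hc
  set s := Real.sqrt (1 - l) with hs
  have hc0 : 0 < c := Real.sqrt_pos.2 h0
  have hs0 : 0 < s := Real.sqrt_pos.2 (by linarith)
  have hcs : c ^ 2 + s ^ 2 = 1 := by
    rw [hc, hs, Real.sq_sqrt h0.le, Real.sq_sqrt (by linarith)]
    ring
  obtain ⟨d1, d2⟩ := log_der hf hg hT hU l h0 h1
  rw [← hc, ← hs] at d1 d2
  have hB := bdc_cv (nice_bdc hf) (nice_bdc hg)
  have hm : Measurable (fun t => Real.log (cv f g t)) := hB.meas.log
  have hi : Integrable (fun t => cv f g t * Real.log (cv f g t)) := by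
    refine (bdc_ent hB).neg.congr (ae_of_all _ fun y => ?_)
    simp only [Real.negMulLog, Pi.neg_apply]
    ring
  obtain ⟨l1, l2⟩ := law_sum hf hg hT hU (fun t => Real.log (cv f g t)) hm hi
  obtain ⟨r1, r2⟩ := gauss_rot c s hcs (fun p => Real.log (cv f g (T p.1 + U p.2))) l1
  have r1' : Integrable (fun p : ℝ × ℝ => Real.log (cv f g (Th c s T U p.1 p.2)) *
      (ga p.1 * ga p.2)) := r1
  have gs := gibbs_step hf hg hT hU c s hc0 hs0 d1 r1'
  have r2' : ∫ p : ℝ × ℝ, Real.log (cv f g (Th c s T U p.1 p.2)) * (ga p.1 * ga p.2) =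
      ∫ t, cv f g t * Real.log (cv f g t) := by
    rw [← l2]
    exact r2
  have e : ∫ t, cv f g t * Real.log (cv f g t) = -∫ t, Real.negMulLog (cv f g t) := by
    rw [← integral_neg]
    refine integral_congr_ae (ae_of_all _ fun y => ?_)
    simp only [Real.negMulLog]
    ring
  rw [r2', e] at gs
  rw [aa_ent hf hT, aa_ent hg hU] at d2
  linarith

end Pool.Agent.EPS
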