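import Pool.Agent.Lib_helper52.EPS.Defs
import Pool.Agent.Lib_helper52.EPS.P.AA
import Pool.Agent.Lib_helper83.EPS.B1
import Pool.Agent.Lib_helper23.EPS.B2
import Pool.Agent.Lib_helper73.EPS.C0
import Pool.Agent.Lib_helper19.EPS.C7
import Pool.Agent.Lib_helper2.EPS.A5

set_option autoImplicit false

namespace Pool.Agent.EPS

open MeasureTheory Set Filter Topology

/-- the entropy power inequality on the line -/
theorem EP_real : EP ℝ 1 := by
  apply EP_of_one
  intro u v hu hv hu1 hv1 l h0 h1
  obtain ⟨R, M, m, F, hF, hFl⟩ := approx hu hu1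
  obtain ⟨R', M', m', F', hF', hFl'⟩ := approx hv hv1
  have nF : ∀ n, Bdc (F n) := fun n => nice_bdc (hF n)
  have nF' : ∀ n, Bdc (F' n) := fun n => nice_bdc (hF' n)
  have key := fun n => nice_epi (hF n) (hF' n) l h0 h1
  have hM0 : ∀ n x, F n x ≤ max (max M M') 0 := by
    intro n x
    by_cases hx : x ∈ Icc (-R) R
    · exact ((hF n).hi x hx).trans ((le_max_left _ _).trans (le_max_left _ _))
    · rw [(hF n).off x hx]
      exact le_max_right _ _
  have hM0' : ∀ n x, F' n x ≤ max (max M M') 0 := by
    intro n x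
    by_cases hx : x ∈ Icc (-R') R'
    · exact ((hF' n).hi x hx).trans ((le_max_right _ _).trans (le_max_left _ _))
    · rw [(hF' n).off x hx]
      exact le_max_right _ _
  have c1 := ent_lim F u _ (Icc (-R) R) isCompact_Icc (fun n => (nF n).meas)
    (fun n => (nF n).nn) hM0 (fun n x hx => (hF n).off x hx) hFl
  have c2 := ent_lim F' v _ (Icc (-R') R') isCompact_Icc (fun n => (nF' n).meas)
    (fun n => (nF' n).nn) hM0' (fun n x hx => (hF' n).off x hx) hFl'
  have c3 := ent_lim (fun n => cv (F n) (F' n)) (cv u v) (max (max M M') 0)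
    (Icc (-(R + R')) (R + R')) isCompact_Icc (fun n => (bdc_cv (nF n) (nF' n)).meas)
    (fun n => (bdc_cv (nF n) (nF' n)).nn)
    (by
      intro n t
      have h1 : cv (F n) (F' n) t ≤ ∫ x, F n x * max (max M M') 0 := by
        unfold cv
        refine integral_mono_of_nonneg (ae_of_all _ fun x => ?_)
          ((bdc_int (nF n)).mul_const _) (ae_of_all _ fun x => ?_)
        · exact mul_nonneg ((nF n).nn x) ((nF' n).nn _)
        · exact mul_le_mul_of_nonneg_left (hM0' n _) ((nF n).nn x)
      rw [integral_mul_const, (hF n).one, one_mul] at h1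
      exact h1)
    (by
      intro n t ht
      unfold cv
      refine integral_eq_zero_of_ae (ae_of_all _ fun x => ?_)
      simp only [Pi.zero_apply]
      by_cases hx : x ∈ Icc (-R) R
      · by_cases hy : t - x ∈ Icc (-R') R'
        · exfalso
          apply ht
          obtain ⟨a1, a2⟩ := hx
          obtain ⟨b1, b2⟩ := hy
          exact ⟨by linarith, by linarith⟩
        · rw [(hF' n).off _ hy, mul_zero]
      · rw [(hF n).off _ hx, zero_mul])
    (ae_of_all _ fun t => cv_lim F F' u v _ (Icc (-R) R) isCompact_Icc (fun n => (nF n).meas)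
      (fun n => (nF n).nn) hM0 (fun n x hx => (hF n).off x hx) (fun n => (nF' n).meas)
      (fun n => (nF' n).nn) hM0' hFl hFl' t)
  exact le_of_tendsto_of_tendsto' (((c1.const_mul l).add (c2.const_mul (1 - l))).add_const _)
    c3 key

end Pool.Agent.EPS
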