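import Pool.Agent.Lib_helper52.EPS.Defs
import Pool.Agent.Lib_helper73.EPS.C0
import Pool.Agent.Lib_helper83.EPS.C1
import Pool.Agent.Lib_helper24.EPS.C2
import Pool.Agent.Lib_helper73.EPS.C3
import Pool.Agent.Lib_helper4.EPS.C4

set_option autoImplicit false

namespace Pool.Agent.EPS

open MeasureTheory Set Filter Topology

variable {G : Type*} [MeasureSpace G] [TopologicalSpace G] [AddCommGroup G]
  [IsTopologicalAddGroup G] [BorelSpace G] [SecondCountableTopology G] [LocallyCompactSpace G]
  [T2Space G] [(volume : Measure G).IsAddHaarMeasure]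
variable {H : Type*} [MeasureSpace H] [TopologicalSpace H] [AddCommGroup H]
  [IsTopologicalAddGroup H] [BorelSpace H] [SecondCountableTopology H] [LocallyCompactSpace H]
  [T2Space H] [(volume : Measure H).IsAddHaarMeasure]

/-- tensorisation -/
theorem EP_prod (m n : ℝ) (hG : EP G m) (hH : EP H n) : EP (G × H) (m + n) := by
  intro u v hu hv l h0 h1
  have hs := bdc_cv hu hv
  obtain ⟨i1, e1⟩ := chain hu
  obtain ⟨i2, e2⟩ := chain hv
  obtain ⟨i3, e3⟩ := chain hs
  have hc := cond_part hu hv n hH l h0 h1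
  have hm : (fun t => ∫ w, cv u v (t, w)) =
      cv (fun x => ∫ y, u (x, y)) (fun x => ∫ y, v (x, y)) := by
    ext t
    exact cv_marg hu hv t
  have hg := hG _ _ (bdc_marg hu) (bdc_marg hv) l h0 h1
  rw [e3, hm, e1, e2]
  rw [marg_mass hu, marg_mass hv] at hg
  nlinarith

end Pool.Agent.EPS
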