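import Pool.Agent.Lib_helper52.EPS.Defs
import Pool.Agent.Lib_helper52.EPS.P.B3
import Pool.Agent.Lib_helper52.EPS.P.C5
import Pool.Agent.Lib_helper44.EPS.D1

set_option autoImplicit false

namespace Pool.Agent.EPS

open MeasureTheory Set Filter Topology

theorem d2_zero : EP (Fin 0 → ℝ) 0 := by
  intro u v hu hv l h0 h1
  have hd : (volume : Measure (Fin 0 → ℝ)) = Measure.dirac default := by
    rw [volume_pi]
    exact Measure.pi_of_empty _ _
  have e : ∀ w : (Fin 0 → ℝ) → ℝ, ∫ x, w x = w default := by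
    intro w
    rw [hd]
    exact integral_dirac _ _
  have k : ∀ w : (Fin 0 → ℝ) → ℝ, KK w = 0 := by
    intro w
    unfold KK
    rw [e, e]
    simp
  rw [k, k, k]
  simp

/-- the homeomorphism `ℝ × ℝ^d → ℝ^(d+1)` -/
noncomputable def d2_cons (d : ℕ) : ℝ × (Fin d → ℝ) ≃ₜ (Fin (d + 1) → ℝ) where
  toFun p := Fin.cons p.1 p.2
  invFun f := (f 0, fun i => f i.succ)
  left_inv p := by simp
  right_inv f := by
    funext i
    refine Fin.cases ?_ (fun j => ?_) i
    · simp
    · simp
  continuous_toFun := by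
    refine continuous_pi fun i => ?_
    refine Fin.cases ?_ (fun j => ?_) i
    · simpa using continuous_fst
    · exact (continuous_apply j).comp continuous_snd
  continuous_invFun := by
    refine Continuous.prodMk (continuous_apply 0) ?_
    exact continuous_pi fun i => continuous_apply i.succ

theorem d2_mp (d : ℕ) : MeasurePreserving (d2_cons d) volume volume := by
  have h := (volume_preserving_piFinSuccAbove (fun _ : Fin (d + 1) => ℝ) 0).symm
  have e : (d2_cons d : ℝ × (Fin d → ℝ) → (Fin (d + 1) → ℝ)) =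
      (MeasurableEquiv.piFinSuccAbove (fun _ : Fin (d + 1) => ℝ) 0).symm := by
    funext p
    show (Fin.cons p.1 p.2 : Fin (d + 1) → ℝ) =
      Fin.insertNth (α := fun _ : Fin (d + 1) => ℝ) 0 p.1 p.2
    rw [Fin.insertNth_zero']
  rw [e]
  exact h

theorem d2_pi (d : ℕ) : EP (Fin d → ℝ) d := by
  induction d with
  | zero => simpa using d2_zero
  | succ d ih =>
    have h := EP_prod (G := ℝ) (H := Fin d → ℝ) 1 d EP_real ih
    have h2 := EP_equiv (1 + (d : ℝ)) (d2_cons d) (by
      intro x y
      funext i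
      refine Fin.cases ?_ (fun j => ?_) i
      · show x.1 + y.1 = _
        rfl
      · rfl) (d2_mp d) h
    have e : ((d + 1 : ℕ) : ℝ) = 1 + (d : ℝ) := by push_cast; ring
    rw [e]
    exact h2

/-- the entropy power inequality in `ℝ^d` -/
theorem EP_euclid (d : ℕ) : EP (EuclideanSpace ℝ (Fin d)) d := by
  have h := d2_pi d
  refine EP_equiv (d : ℝ) (PiLp.homeomorph 2 (fun _ : Fin d => ℝ)).symm (fun x y => rfl) ?_ h
  exact PiLp.volume_preserving_toLp (Fin d)

end Pool.Agent.EPS
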