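import Pool.Agent.Lib_helper52.EPS.Defs
import Pool.Agent.Lib_helper52.EPS.P.D2
import Pool.Agent.Lib_helper9.EPS.E1
import Pool.Agent.Lib_helper54.EPS.E2

set_option autoImplicit false

namespace Pool.Agent.EPS

open MeasureTheory Set Filter Topology

variable {d : ℕ}

/-- the entropy power inequality for densities with finite entropy -/
theorem epi_dens {f g s : EuclideanSpace ℝ (Fin d) → ℝ} (hf : FinD f) (hg : FinD g)
    (hs : FinD s) (hcv : ∀ᵐ t, s t = cv f g t) (l : ℝ) (h0 : 0 < l) (h1 : l < 1) :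
    l * (∫ x, Real.negMulLog (f x)) + (1 - l) * (∫ x, Real.negMulLog (g x))
      + d / 2 * Real.binEntropy l ≤ ∫ t, Real.negMulLog (s t) := by
  obtain ⟨u, u1, u2, u3, u4⟩ := trunc hf
  obtain ⟨v, v1, v2, v3, v4⟩ := trunc hg
  have key : ∀ n, l * (∫ x, v n x) * KK (u n) + (1 - l) * (∫ x, u n x) * KK (v n)
      + d / 2 * Real.binEntropy l * ((∫ x, u n x) * ∫ x, v n x) +
      (1 - ∫ x, u n x) * (∫ x, Real.negMulLog (g x)) + (1 - ∫ x, v n x) * KK (u n) ≤
      ∫ t, Real.negMulLog (s t) := by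
    intro n
    have a1 := EP_euclid d (u n) (v n) (u1 n) (v1 n) l h0 h1
    have a2 := trunc_ineq hf hg hs hcv (u1 n) (v1 n) (u2 n) (v2 n)
    linarith
  have lim : Tendsto (fun n => l * (∫ x, v n x) * KK (u n) + (1 - l) * (∫ x, u n x) * KK (v n)
      + d / 2 * Real.binEntropy l * ((∫ x, u n x) * ∫ x, v n x) +
      (1 - ∫ x, u n x) * (∫ x, Real.negMulLog (g x)) + (1 - ∫ x, v n x) * KK (u n)) atTop
      (𝓝 (l * 1 * (∫ x, Real.negMulLog (f x)) + (1 - l) * 1 * (∫ x, Real.negMulLog (g x))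
      + d / 2 * Real.binEntropy l * (1 * 1) + (1 - 1) * (∫ x, Real.negMulLog (g x)) +
      (1 - 1) * (∫ x, Real.negMulLog (f x)))) :=
    (((((v3.const_mul l).mul u4).add ((u3.const_mul (1 - l)).mul v4)).add
      ((u3.mul v3).const_mul _)).add ((tendsto_const_nhds.sub u3).mul_const _)).add
      ((tendsto_const_nhds.sub v3).mul u4)
  have := le_of_tendsto' lim key
  linarith

end Pool.Agent.EPS
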