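import Pool.Agent.Lib_helper52.EPS.Defs
import Pool.Agent.Lib_helper52.EPS.P.E3
import Pool.Agent.Lib_helper4.EPS.F0

set_option autoImplicit false

namespace Pool.Agent.EPS

open MeasureTheory Set Filter Topology

variable {d : ℕ}

/-- the entropy power inequality for measures, linear form -/
theorem epi_meas (α β : Measure (EuclideanSpace ℝ (Fin d))) [IsProbabilityMeasure α]
    [IsProbabilityMeasure β] (hα : FinE α) (hβ : FinE β) (hc : FinE (α.conv β)) (l : ℝ)
    (h0 : 0 < l) (h1 : l < 1) :
    l * ent α + (1 - l) * ent β + d / 2 * Real.binEntropy l ≤ ent (α.conv β) :=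
  epi_dens (dens_FinD α hα) (dens_FinD β hβ) (dens_FinD (α.conv β) hc)
    (dens_conv α β hα.1 hβ.1) l h0 h1

end Pool.Agent.EPS
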