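import Pool.Agent.Lib_helper52.EPS.Defs
import Pool.Agent.Lib_helper52.EPS.P.F1
import Pool.Agent.Lib_helper4.EPS.F6
import Pool.Agent.Lib_helper52.EPS.P.G1

set_option autoImplicit false

namespace Pool.Agent.EPS

open MeasureTheory Set Filter Topology

variable {d : ℕ}

/-- the entropy power inequality for `k` copies -/
theorem epi_copies (α ζ : Measure (EuclideanSpace ℝ (Fin d))) [IsProbabilityMeasure α]
    [IsProbabilityMeasure ζ] (hα : FinE α) (hζ : FinE ζ) (h1 : FinE (α.conv ζ)) (k : ℕ)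
    (hk : 1 ≤ k) :
    FinE (cp ζ k) ∧ ent ζ + d / 2 * Real.log k ≤ ent (cp ζ k) := by
  induction k, hk using Nat.le_induction with
  | base =>
    have e : cp ζ 1 = ζ := by
      show (cp ζ 0).conv ζ = ζ
      unfold cp
      exact Measure.dirac_zero_conv ζ
    rw [e]
    exact ⟨hζ, by simp⟩
  | succ k hk ih =>
    obtain ⟨ih1, ih2⟩ := ih
    have hp := cp_prob ζ k
    have e : cp ζ (k + 1) = (cp ζ k).conv ζ := rfl
    have hF : FinE ((cp ζ k).conv ζ) := by
      have h := (chain_copies α ζ hα h1 (k + 1)).1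
      exact mid_fin α (cp ζ k) ζ hζ h
    rw [e]
    refine ⟨hF, ?_⟩
    have hk0 : (0 : ℝ) < k := by exact_mod_cast hk
    have hk1 : (0 : ℝ) < (k : ℝ) + 1 := by linarith
    have l0 : (0 : ℝ) < k / ((k : ℝ) + 1) := by positivity
    have l1 : (k : ℝ) / ((k : ℝ) + 1) < 1 := by
      rw [div_lt_one hk1]; linarith
    have h := epi_meas (cp ζ k) ζ ih1 hζ hF _ l0 l1
    have e1 : 1 - (k : ℝ) / ((k : ℝ) + 1) = 1 / ((k : ℝ) + 1) := by
      field_simp
      ring
    have hb : Real.binEntropy ((k : ℝ) / ((k : ℝ) + 1)) =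
        Real.log ((k : ℝ) + 1) - (k : ℝ) / ((k : ℝ) + 1) * Real.log k := by
      rw [Real.binEntropy_eq_negMulLog_add_negMulLog_one_sub, e1]
      simp only [Real.negMulLog]
      rw [Real.log_div hk0.ne' hk1.ne', Real.log_div one_ne_zero hk1.ne', Real.log_one]
      field_simp
      ring
    rw [hb] at h
    have h3 : (k : ℝ) / ((k : ℝ) + 1) * (ent ζ + d / 2 * Real.log k) ≤
        (k : ℝ) / ((k : ℝ) + 1) * ent (cp ζ k) := mul_le_mul_of_nonneg_left ih2 l0.le
    push_cast
    nlinarith [h, h3]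

end Pool.Agent.EPS
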