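import Pool.Agent.Lib_helper52.EPS.Defs
import Pool.Agent.Lib_helper23.EPS.F3
import Pool.Agent.Lib_helper52.EPS.P.F5
import Pool.Agent.Lib_helper52.EPS.P.G1
import Pool.Agent.Lib_helper52.EPS.P.G2

set_option autoImplicit false

namespace Pool.Agent.EPS

open MeasureTheory Set Filter Topology

variable {d : ℕ}

/-- the family of inequalities -/
theorem family (ξ η ζ : Measure (EuclideanSpace ℝ (Fin d))) [IsProbabilityMeasure ξ]
    [IsProbabilityMeasure η] [IsProbabilityMeasure ζ] (hξ : FinE ξ) (hη : FinE η) (hζ : FinE ζ)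
    (h1 : FinE (ξ.conv ζ)) (h2 : FinE (η.conv ζ)) (h3 : FinE ((ξ.conv η).conv ζ)) (k : ℕ)
    (hk : 1 ≤ k) :
    ent ((ξ.conv η).conv ζ) + ent ζ + d / 2 * Real.log k + (k - 1) * (ent ξ + ent η) ≤
      k * (ent (ξ.conv ζ) + ent (η.conv ζ)) := by
  have hp := cp_prob ζ k
  obtain ⟨c1, c2⟩ := epi_copies ξ ζ hξ hζ h1 k hk
  obtain ⟨x1, x2⟩ := chain_copies ξ ζ hξ h1 k
  obtain ⟨y1, y2⟩ := chain_copies η ζ hη h2 k
  obtain ⟨s1, s2⟩ := submod ξ η (cp ζ k) c1 x1 y1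
  obtain ⟨j, rfl⟩ : ∃ j, k = j + 1 := ⟨k - 1, by omega⟩
  have hpj := cp_prob ζ j
  have e : ξ.conv (η.conv (cp ζ (j + 1))) = (cp ζ j).conv ((ξ.conv η).conv ζ) := by
    show ξ.conv (η.conv ((cp ζ j).conv ζ)) = _
    rw [← Measure.conv_assoc ξ η, ← Measure.conv_assoc (ξ.conv η), Measure.conv_comm (ξ.conv η),
      Measure.conv_assoc]
  rw [e] at s1 s2
  have m := (MI_val (cp ζ j) ((ξ.conv η).conv ζ) h3 s1).2
  push_cast at *
  linarith

end Pool.Agent.EPS
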