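import Pool.Agent.Lib_helper52.EPS.Defs
import Pool.Agent.Lib_helper23.EPS.F3
import Pool.Agent.Lib_helper52.EPS.P.G3
import Pool.Agent.Lib_helper83.EPS.G4

set_option autoImplicit false

namespace Pool.Agent.EPS

open MeasureTheory Set Filter Topology ProbabilityTheory

variable {d : ℕ}

/-- entropy power -/
noncomputable def epw {d : ℕ} (μ : Measure (EuclideanSpace ℝ (Fin d))) : ℝ :=
  Real.exp ((2 / (d : ℝ)) * ent μ)

theorem finE_conv (α β : Measure (EuclideanSpace ℝ (Fin d))) [IsProbabilityMeasure β]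
    (hβ : β ≪ volume)
    (hi : Integrable (fun x => Real.negMulLog (((α.conv β).rnDeriv volume x).toReal))) :
    FinE (α.conv β) :=
  ⟨Measure.conv_absolutelyContinuous hβ, hi⟩

theorem main_meas (hd : 0 < d) (ξ η ζ : Measure (EuclideanSpace ℝ (Fin d)))
    [IsProbabilityMeasure ξ] [IsProbabilityMeasure η] [IsProbabilityMeasure ζ] (hξ : FinE ξ)
    (hη : FinE η) (hζ : FinE ζ) (h1 : FinE (ξ.conv ζ)) (h2 : FinE (η.conv ζ))
    (h3 : FinE ((ξ.conv η).conv ζ)) :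
    (∀ k : ℕ, 1 ≤ k → (k : ℝ) * (epw ((ξ.conv η).conv ζ) * epw ζ) *
        (epw ξ * epw η) ^ (k - 1) ≤ (epw (ξ.conv ζ) * epw (η.conv ζ)) ^ k) ∧
      Real.exp (-1) * (epw ((ξ.conv η).conv ζ) * epw ζ) + epw ξ * epw η ≤
        epw (ξ.conv ζ) * epw (η.conv ζ) := by
  have hd0 : (0 : ℝ) < d := by exact_mod_cast hd
  have fam : ∀ k : ℕ, 1 ≤ k → (k : ℝ) * (epw ((ξ.conv η).conv ζ) * epw ζ) *
        (epw ξ * epw η) ^ (k - 1) ≤ (epw (ξ.conv ζ) * epw (η.conv ζ)) ^ k := by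
    intro k hk
    have h := family ξ η ζ hξ hη hζ h1 h2 h3 k hk
    have hk0 : (0 : ℝ) < k := by exact_mod_cast hk
    have e1 : (k : ℝ) = Real.exp (Real.log k) := (Real.exp_log hk0).symm
    have e2 : ((k - 1 : ℕ) : ℝ) = (k : ℝ) - 1 := by
      rw [Nat.cast_sub hk]; simp
    unfold epw
    rw [← Real.exp_add, ← Real.exp_add, ← Real.exp_add, ← Real.exp_nat_mul, ← Real.exp_nat_mul,
      e2]
    nth_rewrite 1 [e1]
    rw [← Real.exp_add, ← Real.exp_add]
    apply Real.exp_le_exp.2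
    have h4 := mul_le_mul_of_nonneg_left h (by positivity : (0 : ℝ) ≤ 2 / (d : ℝ))
    have e3 : 2 / (d : ℝ) * (d / 2 * Real.log k) = Real.log k := by
      field_simp
    have e4 : 2 / (d : ℝ) * (ent ((ξ.conv η).conv ζ) + ent ζ + d / 2 * Real.log k +
        (k - 1) * (ent ξ + ent η)) = 2 / (d : ℝ) * ent ((ξ.conv η).conv ζ) +
        2 / (d : ℝ) * ent ζ + 2 / (d : ℝ) * (d / 2 * Real.log k) +
        ((k : ℝ) - 1) * (2 / (d : ℝ) * ent ξ + 2 / (d : ℝ) * ent η) := by ring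
    rw [e4, e3] at h4
    linarith
  refine ⟨fam, ?_⟩
  have l1 : ent ξ ≤ ent (ξ.conv ζ) := by
    have e : ζ.conv ξ = ξ.conv ζ := Measure.conv_comm _ _
    have := (MI_val ζ ξ hξ (by rw [e]; exact h1)).2
    rwa [e] at this
  have l2 : ent η ≤ ent (η.conv ζ) := by
    have e : ζ.conv η = η.conv ζ := Measure.conv_comm _ _
    have := (MI_val ζ η hη (by rw [e]; exact h2)).2
    rwa [e] at this
  have mono : ∀ a b : ℝ, a ≤ b → Real.exp ((2 / (d : ℝ)) * a) ≤ Real.exp ((2 / (d : ℝ)) * b) := by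
    intro a b h
    exact Real.exp_le_exp.2 (mul_le_mul_of_nonneg_left h (by positivity))
  exact opt_k _ _ _ (mul_pos (Real.exp_pos _) (Real.exp_pos _))
    (mul_pos (Real.exp_pos _) (Real.exp_pos _)) (mul_pos (Real.exp_pos _) (Real.exp_pos _)) fam
    (mul_le_mul (mono _ _ l1) (mono _ _ l2) (Real.exp_pos _).le (Real.exp_pos _).le)

end Pool.Agent.EPS
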