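import Pool.Agent.Lib_helper52.EPS.P.RES

set_option autoImplicit false

namespace Pool.Agent.EPS

open MeasureTheory ProbabilityTheory

theorem eps_final (d : ℕ) (hd : 0 < d) (Ω : Type*) [MeasurableSpace Ω] (P : Measure Ω)
      [IsProbabilityMeasure P] (X Y Z : Ω → EuclideanSpace ℝ (Fin d))
      (hX : Measurable X) (hY : Measurable Y) (hZ : Measurable Z)
      (hI : iIndepFun ![X, Y, Z] P)
      (aX : P.map X ≪ volume) (aY : P.map Y ≪ volume) (aZ : P.map Z ≪ volume)
      (N : (Ω → EuclideanSpace ℝ (Fin d)) → ℝ)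
      (hN : ∀ W : Ω → EuclideanSpace ℝ (Fin d), N W = Real.exp ((2 / (d : ℝ)) *
          ∫ x, Real.negMulLog (((P.map W).rnDeriv volume x).toReal)))
      (hint : ∀ W ∈ [X, Y, Z, X + Z, Y + Z, X + Y + Z],
          Integrable (fun x => Real.negMulLog (((P.map W).rnDeriv volume x).toReal)) volume) :
        Real.exp (-1) * (N (X + Y + Z) * N Z) + N X * N Y ≤ N (X + Z) * N (Y + Z) ∧
        ∀ k : ℕ, 1 ≤ k → (k : ℝ) * (N (X + Y + Z) * N Z) * (N X * N Y) ^ (k - 1) ≤
          (N (X + Z) * N (Y + Z)) ^ k := by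
  have hm : ∀ i, Measurable (![X, Y, Z] i) := by
    intro i
    fin_cases i
    · exact hX
    · exact hY
    · exact hZ
  have iXY : IndepFun X Y P := by
    have := hI.indepFun (i := 0) (j := 1) (by decide)
    simpa using this
  have iXZ : IndepFun X Z P := by
    have := hI.indepFun (i := 0) (j := 2) (by decide)
    simpa using this
  have iYZ : IndepFun Y Z P := by
    have := hI.indepFun (i := 1) (j := 2) (by decide)
    simpa using this
  have iXYZ : IndepFun (X + Y) Z P := by
    have := hI.indepFun_add_left hm 0 1 2 (by decide) (by decide)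
    simpa using this
  have pX : IsProbabilityMeasure (P.map X) := Measure.isProbabilityMeasure_map hX.aemeasurable
  have pY : IsProbabilityMeasure (P.map Y) := Measure.isProbabilityMeasure_map hY.aemeasurable
  have pZ : IsProbabilityMeasure (P.map Z) := Measure.isProbabilityMeasure_map hZ.aemeasurable
  have eXY : P.map (X + Y) = (P.map X).conv (P.map Y) := iXY.map_add_eq_map_conv_map hX hY
  have eXZ : P.map (X + Z) = (P.map X).conv (P.map Z) := iXZ.map_add_eq_map_conv_map hX hZ
  have eYZ : P.map (Y + Z) = (P.map Y).conv (P.map Z) := iYZ.map_add_eq_map_conv_map hY hZ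
  have eXYZ : P.map (X + Y + Z) = ((P.map X).conv (P.map Y)).conv (P.map Z) := by
    rw [← eXY]
    exact iXYZ.map_add_eq_map_conv_map (hX.add hY) hZ
  have fX : FinE (P.map X) := ⟨aX, hint X (by simp)⟩
  have fY : FinE (P.map Y) := ⟨aY, hint Y (by simp)⟩
  have fZ : FinE (P.map Z) := ⟨aZ, hint Z (by simp)⟩
  have fXZ : FinE ((P.map X).conv (P.map Z)) := by
    have h := hint (X + Z) (by simp)
    rw [eXZ] at h
    exact finE_conv _ _ aZ h
  have fYZ : FinE ((P.map Y).conv (P.map Z)) := by
    have h := hint (Y + Z) (by simp)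
    rw [eYZ] at h
    exact finE_conv _ _ aZ h
  have fXYZ : FinE (((P.map X).conv (P.map Y)).conv (P.map Z)) := by
    have h := hint (X + Y + Z) (by simp)
    rw [eXYZ] at h
    exact finE_conv _ _ aZ h
  obtain ⟨r1, r2⟩ := main_meas hd (P.map X) (P.map Y) (P.map Z) fX fY fZ fXZ fYZ fXYZ
  have n1 : N X = epw (P.map X) := hN X
  have n2 : N Y = epw (P.map Y) := hN Y
  have n3 : N Z = epw (P.map Z) := hN Z
  have n4 : N (X + Z) = epw ((P.map X).conv (P.map Z)) := by rw [← eXZ]; exact hN _
  have n5 : N (Y + Z) = epw ((P.map Y).conv (P.map Z)) := by rw [← eYZ]; exact hN _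
  have n6 : N (X + Y + Z) = epw (((P.map X).conv (P.map Y)).conv (P.map Z)) := by
    rw [← eXYZ]; exact hN _
  rw [n1, n2, n3, n4, n5, n6]
  exact ⟨r2, r1⟩

end Pool.Agent.EPS
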